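import Pool.Agent.GameMem200.Reach

/-!
# MP_4814b8_lc : a winning condition such that it and its complement have finite general memory,
but its chromatic memory is infinite
-/

open Pool.Agent.GameMem200

namespace Pool.Agent.Results.MP_4814b8_lc.BothSides

theorem result : ∃ (C : Type) (W : Set (ℕ → C)), Nat.card C = 4 ∧ GenMemLE W 3 ∧ GenMemLE Wᶜ 3 ∧
    ∀ k : ℕ, ¬ ChrMemLE W k := by
  obtain ⟨S, hS⟩ := exists_window
  exact ⟨Col, SafeW S, by simp, genMem_safeW S, genMem_compl S, chrMem_safeW hS⟩

end Pool.Agent.Results.MP_4814b8_lc.BothSides
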